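import Mathlib

set_option autoImplicit false

namespace Pool.Agent.Results.MP_06c496_co.Reach

def Move {n : ℕ} (v w : Fin n → ℂ) : Prop :=
  ∃ i, v i ≠ (∑ j, v j) / n ∧
    ∃ t : ℝ, w = Function.update v i (AffineMap.lineMap (v i) ((∑ j, v j) / n) t)

def Regular {n : ℕ} (w : Fin n → ℂ) : Prop :=
  ∃ c a : ℂ, a ≠ 0 ∧ ∀ j, w j = c + a * Complex.exp (2 * Real.pi * Complex.I * j.val / n)

open Function

abbrev R {n : ℕ} : (Fin n → ℂ) → (Fin n → ℂ) → Prop := Relation.ReflTransGen Move

lemma l1 {n : ℕ} (v : Fin n → ℂ) (i : Fin n) (s : ℝ) :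
    R v (update v i (v i + s * (n * v i - ∑ j, v j))) := by
  have hn : (n : ℂ) ≠ 0 := by have := i.pos; exact_mod_cast this.ne'
  by_cases h : v i = (∑ j, v j) / n
  · have : (n : ℂ) * v i - ∑ j, v j = 0 := by rw [h]; field_simp; ring
    rw [this, mul_zero, add_zero, update_eq_self]
  · refine .single ⟨i, h, -s * n, ?_⟩
    congr 1
    simp only [AffineMap.lineMap_apply, vsub_eq_sub, vadd_eq_add, Complex.real_smul]
    push_cast
    field_simp
    ring

lemma core (q : ℝ) (hq : 2 ≤ q) (T : ℂ → ℂ → ℂ → ℂ → Prop)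
    (tr : ∀ a b c d e f, T a b c d → T c d e f → T a b e f)
    (A : ∀ (s : ℝ) p r, T p r (p + s * (q * p - r)) r)
    (B : ∀ (s : ℝ) p r, T p r p (r + s * (q * r - p))) (c : ℝ) (x y : ℂ) : T x y (x + c * y) y := by
  have key : ∀ (c : ℝ) (x y : ℂ), 1 + q * (c * (2 * (q + 2)) / ((2 * q + 3) * (q - 1))) ≠ 0 →
      T x y (x + c * y) y := by
    intro c x y h
    set σ := c * (2 * (q + 2)) / ((2 * q + 3) * (q - 1)) with hσ
    have h1 : (q : ℂ) + 1 ≠ 0 := by exact_mod_cast (by linarith : q + 1 ≠ 0)
    have h2 : (q : ℂ) + 2 ≠ 0 := by exact_mod_cast (by linarith : q + 2 ≠ 0)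
    have h3 : 1 + (q : ℂ) * σ ≠ 0 := by exact_mod_cast h
    have hc : (c : ℂ) = σ * ((2 * q + 3) * (q - 1)) / (2 * (q + 2)) := by
      have : c = σ * ((2 * q + 3) * (q - 1)) / (2 * (q + 2)) := by
        have a1 : 2 * q + 3 ≠ 0 := by linarith
        have a2 : q - 1 ≠ 0 := by linarith
        have a3 : q + 2 ≠ 0 := by linarith
        rw [hσ]; field_simp
      exact_mod_cast this
    have H : ∀ x y : ℂ, T x y ((q + 2) * x - (q + 1) * y) ((q + 1) / 2 * y) := fun x y => by
      have := tr _ _ _ _ _ _ (tr _ _ _ _ _ _ (B 1 x y) (A 1 _ _)) (B (-1 / (2 * (q + 1))) _ _)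
      convert this using 1
      · push_cast; ring
      · push_cast; field_simp; ring
    have H' : ∀ x y : ℂ, T ((q + 2) * x - (q + 1) * y) ((q + 1) / 2 * y) x y := fun x y => by
      have := tr _ _ _ _ _ _ (tr _ _ _ _ _ _ (B (1 / (q + 2)) ((q + 2) * x - (q + 1) * y)
        ((q + 1) / 2 * y)) (A (-1 / (q + 1)) _ _)) (B (-1 / (q + 1)) _ _)
      convert this using 1
      · push_cast; field_simp; ring
      · push_cast; field_simp; ring
    have s1 := tr _ _ _ _ _ _ (H x y) (A (-σ / (1 + q * σ)) _ _)
    have s2 := tr _ _ _ _ _ _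
      (H' (x / (1 + q * σ) + σ / (1 + q * σ) * ((q + 1) * (2 * q + 1) / (2 * (q + 2))) * y) y)
      (A σ _ _)
    refine tr _ _ _ _ _ _ s1 ?_
    convert s2 using 1
    · push_cast; field_simp; ring
    · rw [hc]
      have h4 : (1 + (q : ℂ) * σ) * (1 + (q : ℂ) * σ)⁻¹ = 1 := mul_inv_cancel₀ h3
      simp only [div_eq_mul_inv] at *
      generalize (1 + (q : ℂ) * σ)⁻¹ = u at *
      have h5 : (2 * ((q : ℂ) + 2)) * (2 * ((q : ℂ) + 2))⁻¹ = 1 :=
        mul_inv_cancel₀ (mul_ne_zero two_ne_zero h2)
      generalize (2 * ((q : ℂ) + 2))⁻¹ = w at *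
      linear_combination (-x - σ * ((q + 1) * (2 * q + 1)) * w * y) * h4 + (-σ * y) * h5
  by_cases h : 1 + q * (c * (2 * (q + 2)) / ((2 * q + 3) * (q - 1))) = 0
  · have h' : 1 + q * (c / 2 * (2 * (q + 2)) / ((2 * q + 3) * (q - 1))) ≠ 0 := by
      intro h'
      have : (1 : ℝ) = 0 := by linear_combination 2 * h' - h
      exact one_ne_zero this
    have := tr _ _ _ _ _ _ (key (c / 2) x y h') (key (c / 2) _ y h')
    convert this using 1
    push_cast; ring
  · exact key c x y h

lemma l2 {n : ℕ} (hn : 3 ≤ n) (v : Fin n → ℂ) (i j : Fin n) (hij : i ≠ j) (c : ℝ) :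
    R v (update v i (v i + c * ((n - 1) * v j - (∑ k, v k - v i)))) := by
  have h2 : (n : ℂ) - 2 ≠ 0 := by
    have : (3 : ℝ) ≤ n := by exact_mod_cast hn
    exact_mod_cast (by linarith : (n : ℝ) - 2 ≠ 0)
  set μ := (∑ k, v k - v i - v j) / (n - 2) with hμ
  let F : ℂ → ℂ → Fin n → ℂ := fun p r => update (update v i (μ + p)) j (μ + r)
  have hS : ∀ p r, ∑ k, F p r k = n * μ + p + r := fun p r => by
    simp only [F]
    rw [Finset.sum_update_of_mem (Finset.mem_univ _), Finset.sdiff_singleton_eq_erase,
      Finset.sum_erase_eq_sub (Finset.mem_univ _), Finset.sum_update_of_mem (Finset.mem_univ _),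
      Finset.sdiff_singleton_eq_erase, Finset.sum_erase_eq_sub (Finset.mem_univ _),
      update_of_ne hij.symm, hμ]
    field_simp
    ring
  have := core (n - 1) (by have : (3 : ℝ) ≤ n := by exact_mod_cast hn
                           linarith) (fun p r p' r' => R (F p r) (F p' r'))
    (fun _ _ _ _ _ _ h h' => h.trans h') (fun s p r => by
      have := l1 (F p r) i s
      convert this using 1
      simp only [hS, F]
      rw [update_comm hij.symm, update_idem, update_of_ne hij, update_self]
      congr 2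
      push_cast; ring) (fun s p r => by
      have := l1 (F p r) j s
      convert this using 1
      simp only [hS, F]
      rw [update_idem, update_self]
      congr 1
      push_cast; ring) (c * (n - 2)) (v i - μ) (v j - μ)
  convert this using 1
  · simp [F]
  · simp only [F, add_sub_cancel]
    rw [update_comm hij, update_eq_self]
    congr 1
    rw [hμ]
    push_cast
    field_simp
    ring

lemma l3 {n : ℕ} (hn : 3 ≤ n) (v : Fin n → ℂ) (i j k : Fin n) (hij : i ≠ j) (hik : i ≠ k) (c : ℝ) :
    R v (update v i (v i + c * (v j - v k))) := by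
  have h2 : (n : ℂ) - 1 ≠ 0 := by
    have : (3 : ℝ) ≤ n := by exact_mod_cast hn
    exact_mod_cast (by linarith : (n : ℝ) - 1 ≠ 0)
  refine (l2 hn v i j hij (c / (n - 1))).trans ?_
  convert l2 hn _ i k hik (-c / (n - 1)) using 1
  rw [update_idem, update_self, update_of_ne hik.symm, Finset.sum_update_of_mem (Finset.mem_univ _),
    Finset.sdiff_singleton_eq_erase, Finset.sum_erase_eq_sub (Finset.mem_univ _)]
  congr 1
  push_cast
  field_simp
  ring

lemma l4 {n : ℕ} (hn : 3 ≤ n) (i k : Fin n) (hik : i ≠ k) (c : ℝ) (S : Finset (Fin n))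
    (hS : i ∉ S) (v : Fin n → ℂ) : R v (update v i (v i + c * ∑ j ∈ S, (v j - v k))) := by
  induction S using Finset.induction_on with
  | empty => simpa using Relation.ReflTransGen.refl
  | insert j S hj ih =>
    have hij : i ≠ j := fun e => hS (by simp [e])
    refine (ih fun h => hS (Finset.mem_insert_of_mem h)).trans ?_
    convert l3 hn _ i j k hij hik c using 1
    rw [update_idem, update_self, update_of_ne hik.symm, update_of_ne hij.symm,
      Finset.sum_insert hj]
    congr 1
    ring

lemma l5 {n : ℕ} (hn : 3 ≤ n) (i k : Fin n) (hik : i ≠ k) (t : ℝ) (v : Fin n → ℂ) :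
    R v (update v i (v k + t * (v i - v k))) := by
  have h2 : (n : ℂ) - 1 ≠ 0 := by
    have : (3 : ℝ) ≤ n := by exact_mod_cast hn
    exact_mod_cast (by linarith : (n : ℝ) - 1 ≠ 0)
  refine (l1 v i ((t - 1) / (n - 1))).trans ?_
  convert l4 hn i k hik ((t - 1) / (n - 1)) (Finset.univ.erase i) (by simp) _ using 1
  rw [update_idem, update_self, update_of_ne hik.symm, Finset.sum_sub_distrib,
    Finset.sum_erase_eq_sub (Finset.mem_univ _), Finset.sum_update_of_mem (Finset.mem_univ _),
    Finset.sdiff_singleton_eq_erase, Finset.sum_erase_eq_sub (Finset.mem_univ _), update_self,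
    Finset.sum_const, Finset.card_erase_of_mem (Finset.mem_univ _)]
  congr 1
  simp only [Finset.card_univ, Fintype.card_fin, nsmul_eq_mul]
  push_cast [Nat.cast_sub (by omega : 1 ≤ n)]
  field_simp
  ring

def act {N : ℕ} (M : Matrix (Fin N) (Fin N) ℝ) (v : Fin (N + 1) → ℂ) : Fin (N + 1) → ℂ :=
  Fin.cons (v 0) fun j => v 0 + ∑ k, M j k * (v k.succ - v 0)

lemma l6 {N : ℕ} (hN : 2 ≤ N) (M : Matrix (Fin N) (Fin N) ℝ) (hM : M.det ≠ 0) :
    ∀ v, R v (act M v) := by
  refine Matrix.diagonal_transvection_induction_of_det_ne_zero (fun M => ∀ v, R v (act M v)) M hM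
    (fun D _ v => ?_) (fun t v => ?_) fun A B _ _ hA hB v => ?_
  · have : ∀ S : Finset (Fin N), R v (act (Matrix.diagonal fun j => if j ∈ S then D j else 1) v) := by
      intro S
      induction S using Finset.induction_on with
      | empty =>
        convert Relation.ReflTransGen.refl
        funext j
        refine Fin.cases ?_ (fun j => ?_) j <;> simp [act, Matrix.diagonal_apply, apply_ite]
      | insert i S hi ih =>
        refine ih.trans ?_
        convert l5 (by omega) i.succ 0 (Fin.succ_ne_zero i) (D i) _ using 1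
        funext j
        refine Fin.cases ?_ (fun j => ?_) j
        · rw [update_of_ne (Fin.succ_ne_zero i).symm]; simp [act]
        · by_cases e : j = i
          · subst e
            simp [act, Matrix.diagonal_apply, apply_ite, hi]
          · rw [update_of_ne fun h => e (Fin.succ_injective _ h)]
            by_cases hj : j ∈ S <;> simp [act, Matrix.diagonal_apply, apply_ite, e, hj]
    simpa using this Finset.univ
  · obtain ⟨i, j, hij, c⟩ := t
    convert l3 (by omega) v i.succ j.succ 0 (fun h => hij (Fin.succ_injective _ h))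
      (Fin.succ_ne_zero i) c using 1
    funext k
    refine Fin.cases ?_ (fun k => ?_) k
    · rw [update_of_ne (Fin.succ_ne_zero i).symm]; simp [act]
    · by_cases e : k = i
      · subst e
        simp only [act, Matrix.TransvectionStruct.toMatrix_mk, Matrix.transvection, Fin.cons_succ,
          Matrix.add_apply, Matrix.one_apply, Matrix.single_apply, update_self, true_and,
          Complex.ofReal_add, add_mul, Finset.sum_add_distrib, apply_ite Complex.ofReal, ite_mul,
          Finset.sum_ite_eq, Finset.mem_univ, if_true, Complex.ofReal_zero, Complex.ofReal_one,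
          zero_mul, one_mul]
        ring
      · rw [update_of_ne fun h => e (Fin.succ_injective _ h)]
        simp only [act, Matrix.TransvectionStruct.toMatrix_mk, Matrix.transvection, Fin.cons_succ,
          Matrix.add_apply, Matrix.one_apply, Matrix.single_apply, Ne.symm e, false_and, if_false,
          add_zero, apply_ite Complex.ofReal, ite_mul,
          Finset.sum_ite_eq, Finset.mem_univ, if_true, Complex.ofReal_zero, Complex.ofReal_one,
          zero_mul, one_mul]
        ring
  · refine (hB v).trans ?_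
    convert hA (act B v) using 1
    funext j
    refine Fin.cases ?_ (fun j => ?_) j
    · simp [act]
    · simp only [act, Fin.cons_succ, Fin.cons_zero, Matrix.mul_apply, add_sub_cancel_left,
        Finset.mul_sum]
      push_cast
      simp only [Finset.sum_mul]
      rw [Finset.sum_comm]
      simp only [mul_assoc]

lemma indep {N : ℕ} (v : Fin (N + 1) → ℂ) (h : ¬ Collinear ℝ (Set.range v)) :
    LinearIndependent ℝ ![fun k : Fin N => (v k.succ - v 0).re, fun k => (v k.succ - v 0).im] := by
  rw [LinearIndependent.pair_iff]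
  intro a b hab
  by_contra hn
  apply h
  rw [collinear_iff_of_mem (p₀ := v 0) (Set.mem_range_self 0)]
  refine ⟨⟨b, -a⟩, ?_⟩
  rintro _ ⟨k, rfl⟩
  refine Fin.cases ⟨0, by simp⟩ (fun k => ?_) k
  have h1 := congrFun hab k
  simp only [Pi.add_apply, Pi.smul_apply, smul_eq_mul, Pi.zero_apply, Complex.sub_re,
    Complex.sub_im] at h1
  have h2 : a ^ 2 + b ^ 2 ≠ 0 := fun e => hn ⟨by nlinarith, by nlinarith⟩
  refine ⟨(b * (v k.succ - v 0).re - a * (v k.succ - v 0).im) / (a ^ 2 + b ^ 2), ?_⟩
  apply Complex.ext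
  · simp only [vadd_eq_add, Complex.add_re, Complex.smul_re, smul_eq_mul, Complex.sub_re,
      Complex.sub_im]
    field_simp; linear_combination a * h1
  · simp only [vadd_eq_add, Complex.add_im, Complex.smul_im, smul_eq_mul, Complex.sub_re,
      Complex.sub_im]
    field_simp; linear_combination b * h1

theorem result (n : ℕ) (hn : 3 ≤ n) (v : Fin n → ℂ) (hv : ¬ Collinear ℝ (Set.range v)) :
    ∃ w, Relation.ReflTransGen Move v w ∧ Regular w := by
  obtain ⟨N, rfl⟩ : ∃ N, n = N + 1 := ⟨n - 1, by omega⟩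
  let θ : ℝ := 2 * Real.pi / (N + 1 : ℕ)
  let P : Fin N → ℂ := fun k => Complex.exp (((k.val + 1 : ℕ) * θ : ℝ) * Complex.I) - 1
  have hP : LinearIndependent ℝ ![fun k => (P k).re, fun k => (P k).im] := by
    rw [LinearIndependent.pair_iff]
    intro a b hab
    have h1 := congrFun hab ⟨0, by omega⟩
    have h2 := congrFun hab ⟨1, by omega⟩
    simp only [P, Pi.add_apply, Pi.smul_apply, smul_eq_mul, Pi.zero_apply, Complex.sub_re,
      Complex.sub_im, Complex.exp_ofReal_mul_I_re, Complex.exp_ofReal_mul_I_im, Complex.one_re,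
      Complex.one_im] at h1 h2
    norm_num [Real.cos_two_mul, Real.sin_two_mul] at h1 h2
    have hN : (3 : ℝ) ≤ (N + 1 : ℕ) := by exact_mod_cast hn
    have hs : 0 < Real.sin θ := Real.sin_pos_of_pos_of_lt_pi (by positivity) (by
      rw [div_lt_iff₀ (by linarith)]; nlinarith [Real.pi_pos])
    have hc : Real.cos θ - 1 ≠ 0 := fun e => by
      nlinarith [Real.sin_sq_add_cos_sq θ]
    have ha : a = 0 := by
      have : a * (Real.cos θ - 1) = 0 := by linear_combination (1 / 2) * h2 - Real.cos θ * h1
      exact (mul_eq_zero.1 this).resolve_right hc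
    rw [ha] at h1
    exact ⟨ha, by simpa [hs.ne'] using h1⟩
  have hV := indep v hv
  obtain ⟨g, hg⟩ := Submodule.exists_linearEquiv_restrict_eq
    (hV.linearCombinationEquiv.symm.trans hP.linearCombinationEquiv)
  have hg' : ∀ i, g (![fun k : Fin N => (v k.succ - v 0).re, fun k => (v k.succ - v 0).im] i) =
      ![fun k => (P k).re, fun k => (P k).im] i := fun i => by
    have := hg (hV.linearCombinationEquiv (Finsupp.single i 1))
    simpa using this.symm
  refine ⟨_, l6 (by omega) (LinearMap.toMatrix' g.toLinearMap)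
    (by rw [LinearMap.det_toMatrix']; exact (LinearEquiv.isUnit_det' g).ne_zero) v,
    v 0 - 1, 1, one_ne_zero, fun j => ?_⟩
  refine Fin.cases (by simp [act]) (fun j => ?_) j
  have e : ∑ k : Fin N, ((LinearMap.toMatrix' g.toLinearMap j k : ℝ) : ℂ) * (v k.succ - v 0) = P j := by
    apply Complex.ext
    · have := congrFun (hg' 0) j
      rw [← LinearEquiv.coe_coe, ← LinearMap.toMatrix'_mulVec] at this
      simpa [Matrix.mulVec, dotProduct] using this
    · have := congrFun (hg' 1) j
      rw [← LinearEquiv.coe_coe, ← LinearMap.toMatrix'_mulVec] at this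
      simpa [Matrix.mulVec, dotProduct] using this
  simp only [act, Fin.cons_succ, e, P, θ, Fin.val_succ]
  push_cast
  ring_nf

end Pool.Agent.Results.MP_06c496_co.Reach
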